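import Pool.Agent.Helper52.EK.Defs
set_option autoImplicit false
open Complex MeasureTheory Metric Set
open scoped Real ComplexConjugate

/-! Project EK, module E1c: the function `X` is analytic without zeros near a closed rectangle of
the strip `log τ < ξ < 0`. -/

namespace Pool.Agent.Helper67.EK

open Pool.Agent.Helper39.Area Pool.Agent.Helper52.EK

/-- the point `Z = exp ω`: `Im Z ≥ 0` and `‖Z‖ = exp (re ω)` on the closed strip -/
theorem exp_im_nonneg {ω : ℂ} (h0 : 0 ≤ ω.im) (h1 : ω.im ≤ π) : 0 ≤ (Complex.exp ω).im := by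
  rw [Complex.exp_im]
  exact mul_nonneg (Real.exp_pos _).le (Real.sin_nonneg_of_nonneg_of_le_pi h0 h1)

theorem norm_exp_lt_one {ω : ℂ} (h : ω.re < 0) : ‖Complex.exp ω‖ < 1 := by
  rw [Complex.norm_exp]
  exact Real.exp_lt_one_iff.mpr h

theorem I_add_ne {Z : ℂ} (h : ‖Z‖ < 1) : I + Z ≠ 0 := by
  intro h'
  have h1 : Z = -I := by linear_combination h'
  rw [h1, norm_neg, Complex.norm_I] at h
  exact lt_irrefl _ h

theorem I_sub_ne {Z : ℂ} (h : ‖Z‖ < 1) : I - Z ≠ 0 := by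
  intro h'
  have h1 : Z = I := by linear_combination -h'
  rw [h1, Complex.norm_I] at h
  exact lt_irrefl _ h

theorem norm_sub_le_add {Z : ℂ} (h : 0 ≤ Z.im) : ‖I - Z‖ ≤ ‖I + Z‖ := by
  have h1 : ‖I - Z‖ ^ 2 ≤ ‖I + Z‖ ^ 2 := by
    rw [← Complex.normSq_eq_norm_sq, ← Complex.normSq_eq_norm_sq, Complex.normSq_apply,
      Complex.normSq_apply]
    simp only [Complex.sub_re, Complex.sub_im, Complex.add_re, Complex.add_im, Complex.I_re,
      Complex.I_im]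
    nlinarith
  exact (sq_le_sq₀ (norm_nonneg _) (norm_nonneg _)).mp h1

/-- `‖zf ω‖ ≤ 1` on the closed left half strip -/
theorem norm_zf_le {ω : ℂ} (h : ω.re < 0) (h0 : 0 ≤ ω.im) (h1 : ω.im ≤ π) : ‖zf ω‖ ≤ 1 := by
  unfold zf
  rw [norm_div]
  have h2 := I_add_ne (norm_exp_lt_one h)
  rw [div_le_one (norm_pos_iff.mpr h2)]
  exact norm_sub_le_add (exp_im_nonneg h0 h1)

theorem zf_ne_zero {ω : ℂ} (h : ω.re < 0) : zf ω ≠ 0 := by
  unfold zf
  exact div_ne_zero (I_sub_ne (norm_exp_lt_one h)) (I_add_ne (norm_exp_lt_one h))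

/-- `zf ω = a` only at `ω` with real part `log τ` -/
theorem zf_ne_a {ω : ℂ} {a : ℝ} (ha : 0 < a) (ha1 : a < 1) (h : ω.re < 0)
    (h1 : Real.log (tau a) < ω.re) : zf ω ≠ (a : ℂ) := by
  intro h'
  have h2 := I_add_ne (norm_exp_lt_one h)
  unfold zf at h'
  rw [div_eq_iff h2] at h'
  have h3 : (1 + (a : ℂ)) * Complex.exp ω = (1 - (a : ℂ)) * I := by linear_combination -h'
  have h4 : ‖(1 + (a : ℂ)) * Complex.exp ω‖ = ‖(1 - (a : ℂ)) * I‖ := by rw [h3]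
  have h5 : ‖(1 + (a : ℂ))‖ = 1 + a := by
    rw [show (1 + (a : ℂ)) = ((1 + a : ℝ) : ℂ) by push_cast; ring, Complex.norm_real,
      Real.norm_of_nonneg (by linarith)]
  have h6 : ‖(1 - (a : ℂ))‖ = 1 - a := by
    rw [show (1 - (a : ℂ)) = ((1 - a : ℝ) : ℂ) by push_cast; ring, Complex.norm_real,
      Real.norm_of_nonneg (by linarith)]
  rw [norm_mul, norm_mul, h5, h6, Complex.norm_I, mul_one, Complex.norm_exp] at h4
  have h7 : tau a = Real.exp ω.re := by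
    unfold tau
    rw [div_eq_iff (by linarith)]
    linarith
  rw [h7, Real.log_exp] at h1
  exact lt_irrefl _ h1

theorem zd_ne_zero {ω : ℂ} (h : ω.re < 0) : zd ω ≠ 0 := by
  unfold zd
  have h2 := I_add_ne (norm_exp_lt_one h)
  have h3 : Complex.exp ω + I ≠ 0 := by rw [add_comm]; exact h2
  refine div_ne_zero (mul_ne_zero (mul_ne_zero (by norm_num) I_ne_zero) (Complex.exp_ne_zero _)) ?_
  exact pow_ne_zero 2 h3

theorem dphi_ne_zero {β : ℂ → ℂ} {R : ℝ} (h : ExtR β R) {z : ℂ} (hz : z ∈ ball (0:ℂ) R)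
    (h0 : z ≠ 0) : dphi β z ≠ 0 := by
  intro h'
  apply h.ne z hz
  unfold dphi at h'
  have h1 : z ^ 2 ≠ 0 := pow_ne_zero 2 h0
  have h2 : deriv β z = (z ^ 2)⁻¹ := by linear_combination h'
  rw [h2, mul_inv_cancel₀ h1, sub_self]

theorem phi_sub_ne {β : ℂ → ℂ} {R : ℝ} (h : ExtR β R) {z a : ℂ} (hz : z ∈ ball (0:ℂ) R)
    (ha : a ∈ ball (0:ℂ) R) (h0 : z ≠ 0) (ha0 : a ≠ 0) (hza : z ≠ a) :
    phi β z - phi β a ≠ 0 := by
  intro h'
  exact hza (h.inj z a hz ha h0 ha0 (sub_eq_zero.mp h'))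

theorem beta_an {β : ℂ → ℂ} {R : ℝ} (h : ExtR β R) {z : ℂ} (hz : z ∈ ball (0:ℂ) R) :
    AnalyticAt ℂ β z :=
  h.diff.analyticAt (isOpen_ball.mem_nhds hz)

theorem phi_an {β : ℂ → ℂ} {R : ℝ} (h : ExtR β R) {z : ℂ} (hz : z ∈ ball (0:ℂ) R)
    (h0 : z ≠ 0) : AnalyticAt ℂ (phi β) z :=
  (analyticAt_id.inv h0).add (beta_an h hz)

theorem dphi_an {β : ℂ → ℂ} {R : ℝ} (h : ExtR β R) {z : ℂ} (hz : z ∈ ball (0:ℂ) R)
    (h0 : z ≠ 0) : AnalyticAt ℂ (dphi β) z :=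
  (((analyticAt_id.pow 2).inv (pow_ne_zero 2 h0)).neg).add (beta_an h hz).deriv

theorem zf_an {ω : ℂ} (h : ω.re < 0) : AnalyticAt ℂ zf ω := by
  unfold zf
  exact (analyticAt_const.sub analyticAt_cexp).div (analyticAt_const.add analyticAt_cexp)
    (I_add_ne (norm_exp_lt_one h))

theorem zd_an {ω : ℂ} (h : ω.re < 0) : AnalyticAt ℂ zd ω := by
  unfold zd
  refine ((analyticAt_const.mul analyticAt_cexp)).div
    ((analyticAt_cexp.add analyticAt_const).pow 2) ?_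
  have h2 := I_add_ne (norm_exp_lt_one h)
  refine pow_ne_zero 2 ?_
  rw [add_comm]
  exact h2

/-- E1c -/
theorem E1c {β : ℂ → ℂ} {R : ℝ} (h : ExtR β R) {a : ℝ} (ha : 0 < a) (ha1 : a < 1) {x₁ x₂ : ℝ}
    (h1 : Real.log (tau a) < x₁) (h2 : x₂ < 0) : NiceX (Xf β a) x₁ x₂ := by
  have key : ∀ ω ∈ Rect x₁ x₂, ω.re < 0 ∧ zf ω ∈ ball (0:ℂ) R ∧ zf ω ≠ 0 ∧
      phi β (zf ω) - phi β (a : ℂ) ≠ 0 := by
    intro ω hω
    obtain ⟨⟨hr1, hr2⟩, hi1, hi2⟩ := hω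
    have hre : ω.re < 0 := lt_of_le_of_lt hr2 h2
    have hz : zf ω ∈ ball (0:ℂ) R := by
      rw [mem_ball_zero_iff]
      exact lt_of_le_of_lt (norm_zf_le hre hi1 hi2) h.one_lt
    have haR : (a : ℂ) ∈ ball (0:ℂ) R := by
      rw [mem_ball_zero_iff, Complex.norm_real, Real.norm_of_nonneg ha.le]
      exact ha1.trans h.one_lt
    refine ⟨hre, hz, zf_ne_zero hre, ?_⟩
    exact phi_sub_ne h hz haR (zf_ne_zero hre) (by exact_mod_cast ha.ne')
      (zf_ne_a ha ha1 hre (lt_of_lt_of_le h1 hr1))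
  constructor
  · intro ω hω
    obtain ⟨hre, hz, hz0, hne⟩ := key ω hω
    unfold Xf
    have hzf := zf_an hre
    have hd : AnalyticAt ℂ (fun w => dphi β (zf w)) ω := (dphi_an h hz hz0).comp hzf
    have hp : AnalyticAt ℂ (fun w => phi β (zf w)) ω := (phi_an h hz hz0).comp hzf
    refine ((zd_an hre).mul hd).div (analyticAt_const.mul (hp.sub analyticAt_const)) ?_
    exact mul_ne_zero two_ne_zero hne
  · intro ω hω
    obtain ⟨hre, hz, hz0, hne⟩ := key ω hω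
    unfold Xf
    exact div_ne_zero (mul_ne_zero (zd_ne_zero hre) (dphi_ne_zero h hz hz0))
      (mul_ne_zero two_ne_zero hne)

end Pool.Agent.Helper67.EK
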